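import Pool.Agent.W192.CM.Parts

/-!
Project CM (helper192): small elements in a multiplicative subgroup.
-/

set_option autoImplicit false

namespace Pool.Agent.W108.CM

open Finset Pool.Agent.W192.CM

section

variable {R : Subring ℂ} {κ : R}

/-- the residue of `γ` belongs to `H` -/
def PH (H : Subgroup (Aq R κ)ˣ) (γ : R) : Prop :=
  ∃ x ∈ H, ((x : (Aq R κ)ˣ) : Aq R κ) = Ideal.Quotient.mk (Ideal.span {κ}) γ

theorem PH_prod {H : Subgroup (Aq R κ)ˣ} {j : ℕ} (f : Fin j → R)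
    (hf : ∀ i, PH H (f i)) : PH H (∏ i, f i) := by
  classical
  choose u hu1 hu2 using hf
  have key : ∀ s : Finset (Fin j), (∏ i ∈ s, u i) ∈ H := by
    intro s
    induction s using Finset.induction_on with
    | empty => rw [prod_empty]; exact H.one_mem
    | insert a s ha ih => rw [prod_insert ha]; exact H.mul_mem (hu1 a) ih
  refine ⟨∏ i, u i, key _, ?_⟩
  rw [Units.coe_prod, map_prod]
  exact Finset.prod_congr rfl fun i _ => hu2 i

/-- the elements up to `y` in `H` -/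
def SS (H : Subgroup (Aq R κ)ˣ) (y : ℝ) : Set R :=
  {γ : R | Complex.normSq (γ : ℂ) ≤ y ∧ PH H γ ∧ γ ≠ 0}

theorem cnt_eq (H : Subgroup (Aq R κ)ˣ) (y : ℝ) : cntR H y = (SS H y).ncard := by
  unfold cntR SS PH
  congr 1
  ext γ
  constructor
  · rintro ⟨h1, x, h2, h3, h4⟩
    exact ⟨h1, ⟨x, h2, h3⟩, h4⟩
  · rintro ⟨h1, ⟨x, h2, h3⟩, h4⟩
    exact ⟨h1, x, h2, h3, h4⟩

end

theorem c_count (hB : C_BASIC) (hL : C_LAT) (hD : C_DIVR) : C_COUNT := by
  classical
  intro R ω hR j hj η hη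
  have hj0 : (0 : ℝ) < (j : ℝ) := by exact_mod_cast hj
  obtain ⟨C, hC, hdiv⟩ := hD R ω hR (η / (j : ℝ) ^ 2) (by positivity)
  obtain ⟨C₁, hC₁, hlat⟩ := hL R ω hR
  refine ⟨C ^ j * C₁, by positivity, ?_⟩
  intro κ hκ H y hy
  obtain ⟨hfinA, -⟩ := (hB R ω hR).2.2.2.2 κ hκ
  have hfinH : Finite H := inferInstance
  have hy0 : (0 : ℝ) ≤ y := by linarith
  have hyj : (0 : ℝ) ≤ y ^ j := by positivity
  have hN : 0 < Complex.normSq (κ : ℂ) := by
    rw [Complex.normSq_pos]
    intro h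
    exact hκ (Subtype.ext h)
  have hfin : ∀ z : ℝ, 0 ≤ z → (SS H z).Finite := by
    intro z hz
    refine (hlat 1 one_ne_zero 0 z hz).1.subset ?_
    rintro γ ⟨h1, -, -⟩
    exact ⟨h1, one_dvd _⟩
  rw [cnt_eq H y, Set.ncard_eq_toFinset_card _ (hfin y hy0)]
  obtain ⟨S, hS⟩ : ∃ S, S = (hfin y hy0).toFinset := ⟨_, rfl⟩
  obtain ⟨T, hT⟩ : ∃ T, T = (hfin (y ^ j) hyj).toFinset := ⟨_, rfl⟩
  rw [← hS]
  have memS : ∀ γ : R, γ ∈ S ↔ Complex.normSq (γ : ℂ) ≤ y ∧ PH H γ ∧ γ ≠ 0 := by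
    intro γ
    rw [hS, Set.Finite.mem_toFinset]
    rfl
  have memT : ∀ γ : R, γ ∈ T ↔ Complex.normSq (γ : ℂ) ≤ y ^ j ∧ PH H γ ∧ γ ≠ 0 := by
    intro γ
    rw [hT, Set.Finite.mem_toFinset]
    rfl
  -- the map
  have hmaps : ∀ f ∈ Fintype.piFinset (fun _ : Fin j => S), (∏ i, f i) ∈ T := by
    intro f hf
    rw [Fintype.mem_piFinset] at hf
    have hf' := fun i => (memS (f i)).mp (hf i)
    rw [memT]
    refine ⟨?_, PH_prod f fun i => (hf' i).2.1, Finset.prod_ne_zero_iff.mpr fun i _ => (hf' i).2.2⟩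
    have e : ((∏ i, f i : R) : ℂ) = ∏ i, (f i : ℂ) := by push_cast; rfl
    rw [e, map_prod]
    calc ∏ i, Complex.normSq (f i : ℂ) ≤ ∏ _i : Fin j, y :=
          Finset.prod_le_prod (fun i _ => Complex.normSq_nonneg _) fun i _ => (hf' i).1
      _ = y ^ j := by rw [Finset.prod_const, Finset.card_univ, Fintype.card_fin]
  have hfib : ∀ K ∈ T, (((Fintype.piFinset (fun _ : Fin j => S)).filter
      (fun f => ∏ i, f i = K)).card : ℝ) ≤ C ^ j * y ^ η := by
    intro K hK
    rw [memT] at hK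
    obtain ⟨hK1, -, hK0⟩ := hK
    obtain ⟨hd1, hd2⟩ := hdiv K hK0
    obtain ⟨D, hDd⟩ : ∃ D, D = hd1.toFinset := ⟨_, rfl⟩
    rw [Set.ncard_eq_toFinset_card _ hd1, ← hDd] at hd2
    have h1 : ((Fintype.piFinset (fun _ : Fin j => S)).filter
        (fun f => ∏ i, f i = K)).card ≤ D.card ^ j := by
      calc _ ≤ (Fintype.piFinset (fun _ : Fin j => D)).card := by
            refine Finset.card_le_card fun f hf => ?_
            rw [mem_filter] at hf
            rw [Fintype.mem_piFinset]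
            intro i
            rw [hDd, Set.Finite.mem_toFinset]
            show f i ∣ K
            rw [← hf.2]
            exact Finset.dvd_prod_of_mem f (Finset.mem_univ i)
        _ = _ := by
            rw [Fintype.card_piFinset, Finset.prod_const, Finset.card_univ, Fintype.card_fin]
    have h2 : (((Fintype.piFinset (fun _ : Fin j => S)).filter
        (fun f => ∏ i, f i = K)).card : ℝ) ≤ (D.card : ℝ) ^ j := by exact_mod_cast h1
    refine h2.trans ?_
    have h3 : (D.card : ℝ) ≤ C * y ^ (η / j) := by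
      refine hd2.trans ?_
      refine mul_le_mul_of_nonneg_left ?_ hC.le
      calc (Complex.normSq (K : ℂ)) ^ (η / (j : ℝ) ^ 2) ≤ (y ^ j) ^ (η / (j : ℝ) ^ 2) :=
            Real.rpow_le_rpow (Complex.normSq_nonneg _) hK1 (by positivity)
        _ = y ^ (η / j) := by
            rw [← Real.rpow_natCast y j, ← Real.rpow_mul hy0]
            congr 1
            field_simp
    calc (D.card : ℝ) ^ j ≤ (C * y ^ (η / j)) ^ j :=
          pow_le_pow_left₀ (by positivity) h3 j
      _ = C ^ j * y ^ η := by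
          rw [mul_pow, ← Real.rpow_natCast (y ^ (η / j)) j, ← Real.rpow_mul hy0]
          congr 2
          field_simp
  have hTc : (T.card : ℝ) ≤ C₁ * (1 + y ^ j / Complex.normSq (κ : ℂ)) * Nat.card H := by
    obtain ⟨I, hI⟩ : ∃ I, I = T.image (fun γ => Ideal.Quotient.mk (Ideal.span {κ}) γ) := ⟨_, rfl⟩
    have hIc : I.card ≤ Nat.card H := by
      have hfinI : ((fun u : (Aq R κ)ˣ => (u : Aq R κ)) '' (H : Set (Aq R κ)ˣ)).Finite :=
        Set.toFinite _
      have hc : hfinI.toFinset.card ≤ Nat.card H := by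
        rw [← Set.ncard_eq_toFinset_card _ hfinI]
        refine (Set.ncard_image_le (Set.toFinite _)).trans (le_of_eq ?_)
        exact (Nat.card_coe_set_eq _).symm
      refine le_trans (Finset.card_le_card ?_) hc
      intro a ha
      rw [hI, mem_image] at ha
      obtain ⟨γ, hγ, rfl⟩ := ha
      rw [memT] at hγ
      obtain ⟨x, hx1, hx2⟩ := hγ.2.1
      rw [Set.Finite.mem_toFinset]
      exact ⟨x, hx1, hx2⟩
    have hf : ∀ a ∈ I, ((T.filter (fun γ => Ideal.Quotient.mk (Ideal.span {κ}) γ = a)).card : ℝ) ≤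
        C₁ * (1 + y ^ j / Complex.normSq (κ : ℂ)) := by
      intro a ha
      rw [hI, mem_image] at ha
      obtain ⟨γ₀, -, rfl⟩ := ha
      obtain ⟨hl1, hl2⟩ := hlat κ hκ γ₀ (y ^ j) hyj
      refine le_trans ?_ hl2
      rw [Set.ncard_eq_toFinset_card _ hl1]
      have : (T.filter (fun γ => Ideal.Quotient.mk (Ideal.span {κ}) γ =
          Ideal.Quotient.mk (Ideal.span {κ}) γ₀)).card ≤ hl1.toFinset.card := by
        refine Finset.card_le_card fun γ hγ => ?_
        rw [mem_filter, memT] at hγ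
        rw [Set.Finite.mem_toFinset]
        refine ⟨hγ.1.1, ?_⟩
        exact Ideal.mem_span_singleton.1 (Ideal.Quotient.eq.1 hγ.2)
      exact_mod_cast this
    have hmapsI : ∀ γ ∈ T, Ideal.Quotient.mk (Ideal.span {κ}) γ ∈ I := by
      intro γ hγ
      rw [hI]
      exact mem_image_of_mem _ hγ
    rw [Finset.card_eq_sum_card_fiberwise hmapsI]
    push_cast
    calc ∑ a ∈ I, ((T.filter (fun γ => Ideal.Quotient.mk (Ideal.span {κ}) γ = a)).card : ℝ)
        ≤ ∑ _a ∈ I, C₁ * (1 + y ^ j / Complex.normSq (κ : ℂ)) := Finset.sum_le_sum hf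
      _ = I.card * (C₁ * (1 + y ^ j / Complex.normSq (κ : ℂ))) := by
          rw [Finset.sum_const, nsmul_eq_mul]
      _ ≤ Nat.card H * (C₁ * (1 + y ^ j / Complex.normSq (κ : ℂ))) := by
          refine mul_le_mul_of_nonneg_right (by exact_mod_cast hIc) ?_
          have : 0 ≤ y ^ j / Complex.normSq (κ : ℂ) := div_nonneg hyj hN.le
          positivity
      _ = _ := by ring
  have hcard : (S.card : ℝ) ^ j = ((Fintype.piFinset (fun _ : Fin j => S)).card : ℝ) := by
    rw [Fintype.card_piFinset, Finset.prod_const, Finset.card_univ, Fintype.card_fin]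
    push_cast
    rfl
  rw [hcard, Finset.card_eq_sum_card_fiberwise hmaps]
  push_cast
  calc ∑ K ∈ T, (((Fintype.piFinset (fun _ : Fin j => S)).filter
        (fun f => ∏ i, f i = K)).card : ℝ) ≤ ∑ _K ∈ T, C ^ j * y ^ η := Finset.sum_le_sum hfib
    _ = T.card * (C ^ j * y ^ η) := by rw [Finset.sum_const, nsmul_eq_mul]
    _ ≤ (C₁ * (1 + y ^ j / Complex.normSq (κ : ℂ)) * Nat.card H) * (C ^ j * y ^ η) :=
        mul_le_mul_of_nonneg_right hTc (by positivity)
    _ = _ := by ring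

end Pool.Agent.W108.CM
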